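import Mathlib
import Pool.Agent.U723.OC.Stm

/-!
# Project OC, package M2: the four quarters of a tiny circle are triangular faces

Co-authors: helper723 (project, statement, plan of the proof), helper643 (this package).
-/

set_option autoImplicit false

open Metric Set

namespace Pool.Agent.U643.OC

open Pool.Agent.U723.OC

lemma nsq (w : ℂ) : ‖w‖ ^ 2 = w.re ^ 2 + w.im ^ 2 := by
  rw [Complex.sq_norm, Complex.normSq_apply]
  ring

lemma nle (w : ℂ) : ‖w‖ ≤ 1 ↔ w.re ^ 2 + w.im ^ 2 ≤ 1 := by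
  rw [← nsq]
  constructor
  · intro h
    nlinarith [norm_nonneg w]
  · intro h
    nlinarith [norm_nonneg w]

lemma nlt (w : ℂ) : ‖w‖ < 1 ↔ w.re ^ 2 + w.im ^ 2 < 1 := by
  rw [← nsq]
  constructor
  · intro h
    nlinarith [norm_nonneg w]
  · intro h
    nlinarith [norm_nonneg w]

lemma neq (w : ℂ) : ‖w‖ = 1 ↔ w.re ^ 2 + w.im ^ 2 = 1 := by
  rw [← nsq]
  constructor
  · intro h
    rw [h]
    norm_num
  · intro h
    have := norm_nonneg w
    nlinarith [sq_nonneg (‖w‖ - 1)]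

lemma memK (w : ℂ) : w ∈ closedBall (0 : ℂ) 1 ↔ w.re ^ 2 + w.im ^ 2 ≤ 1 := by
  rw [mem_closedBall_zero_iff, nle]

/-- the open quarter -/
def qo (e₁ e₂ : ℝ) : Set ℂ := {w | ‖w‖ < 1 ∧ 0 < e₁ * w.re ∧ 0 < e₂ * w.im}

/-- the closed quarter -/
def qc (e₁ e₂ : ℝ) : Set ℂ := {w | ‖w‖ ≤ 1 ∧ 0 ≤ e₁ * w.re ∧ 0 ≤ e₂ * w.im}

/-- the real radius -/
def ra (e₁ : ℝ) : Set ℂ := {w | ‖w‖ ≤ 1 ∧ w.im = 0 ∧ 0 ≤ e₁ * w.re}

/-- the imaginary radius -/
def rb (e₂ : ℝ) : Set ℂ := {w | ‖w‖ ≤ 1 ∧ w.re = 0 ∧ 0 ≤ e₂ * w.im}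

/-- the quarter of the circle -/
def rd (e₁ e₂ : ℝ) : Set ℂ := {w | ‖w‖ = 1 ∧ 0 ≤ e₁ * w.re ∧ 0 ≤ e₂ * w.im}

lemma cre (e : ℝ) : Continuous fun w : ℂ => e * w.re := continuous_const.mul Complex.continuous_re

lemma cim (e : ℝ) : Continuous fun w : ℂ => e * w.im := continuous_const.mul Complex.continuous_im

lemma qo_open (e₁ e₂ : ℝ) : IsOpen (qo e₁ e₂) := by
  show IsOpen ({w : ℂ | ‖w‖ < 1} ∩ ({w | 0 < e₁ * w.re} ∩ {w | 0 < e₂ * w.im}))
  exact (isOpen_lt continuous_norm continuous_const).inter ((isOpen_lt continuous_const (cre e₁)).inter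
    (isOpen_lt continuous_const (cim e₂)))

lemma qc_closed (e₁ e₂ : ℝ) : IsClosed (qc e₁ e₂) := by
  show IsClosed ({w : ℂ | ‖w‖ ≤ 1} ∩ ({w | 0 ≤ e₁ * w.re} ∩ {w | 0 ≤ e₂ * w.im}))
  exact (isClosed_le continuous_norm continuous_const).inter ((isClosed_le continuous_const
    (cre e₁)).inter (isClosed_le continuous_const (cim e₂)))

lemma ra_closed (e₁ : ℝ) : IsClosed (ra e₁) := by
  show IsClosed ({w : ℂ | ‖w‖ ≤ 1} ∩ ({w | w.im = 0} ∩ {w | 0 ≤ e₁ * w.re}))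
  exact (isClosed_le continuous_norm continuous_const).inter ((isClosed_eq
    Complex.continuous_im continuous_const).inter (isClosed_le continuous_const (cre e₁)))

lemma rb_closed (e₂ : ℝ) : IsClosed (rb e₂) := by
  show IsClosed ({w : ℂ | ‖w‖ ≤ 1} ∩ ({w | w.re = 0} ∩ {w | 0 ≤ e₂ * w.im}))
  exact (isClosed_le continuous_norm continuous_const).inter ((isClosed_eq
    Complex.continuous_re continuous_const).inter (isClosed_le continuous_const (cim e₂)))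

lemma rd_closed (e₁ e₂ : ℝ) : IsClosed (rd e₁ e₂) := by
  show IsClosed ({w : ℂ | ‖w‖ = 1} ∩ ({w | 0 ≤ e₁ * w.re} ∩ {w | 0 ≤ e₂ * w.im}))
  exact (isClosed_eq continuous_norm continuous_const).inter ((isClosed_le continuous_const
    (cre e₁)).inter (isClosed_le continuous_const (cim e₂)))

lemma qo_sub (e₁ e₂ : ℝ) : qo e₁ e₂ ⊆ closedBall 0 1 := fun w h => by
  rw [mem_closedBall_zero_iff]; exact h.1.le

lemma qc_sub (e₁ e₂ : ℝ) : qc e₁ e₂ ⊆ closedBall 0 1 := fun w h => by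
  rw [mem_closedBall_zero_iff]; exact h.1

lemma ra_sub (e₁ : ℝ) : ra e₁ ⊆ closedBall 0 1 := fun w h => by
  rw [mem_closedBall_zero_iff]; exact h.1

lemma rb_sub (e₂ : ℝ) : rb e₂ ⊆ closedBall 0 1 := fun w h => by
  rw [mem_closedBall_zero_iff]; exact h.1

lemma rd_sub (e₁ e₂ : ℝ) : rd e₁ e₂ ⊆ closedBall 0 1 := fun w h => by
  rw [mem_closedBall_zero_iff]; exact h.1.le

lemma qo_convex (e₁ e₂ : ℝ) : Convex ℝ (qo e₁ e₂) := by
  intro x hx y hy a b ha hb hab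
  obtain ⟨x1, x2, x3⟩ := hx
  obtain ⟨y1, y2, y3⟩ := hy
  have hn : a * ‖x‖ + b * ‖y‖ < 1 := by
    rcases eq_or_lt_of_le ha with h | h
    · rw [← h] at hab ⊢
      have : b = 1 := by linarith
      rw [this]
      linarith
    · nlinarith
  refine ⟨lt_of_le_of_lt (norm_add_le _ _) ?_, ?_, ?_⟩
  · rw [norm_smul, norm_smul, Real.norm_of_nonneg ha, Real.norm_of_nonneg hb]
    exact hn
  · simp only [Complex.add_re, Complex.smul_re, smul_eq_mul]
    have : e₁ * (a * x.re + b * y.re) = a * (e₁ * x.re) + b * (e₁ * y.re) := by ring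
    rw [this]
    rcases eq_or_lt_of_le ha with h | h
    · rw [← h] at hab ⊢
      have : b = 1 := by linarith
      rw [this]
      linarith
    · have := mul_pos h x2
      have := mul_nonneg hb y2.le
      linarith
  · simp only [Complex.add_im, Complex.smul_im, smul_eq_mul]
    have : e₂ * (a * x.im + b * y.im) = a * (e₂ * x.im) + b * (e₂ * y.im) := by ring
    rw [this]
    rcases eq_or_lt_of_le ha with h | h
    · rw [← h] at hab ⊢
      have : b = 1 := by linarith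
      rw [this]
      linarith
    · have := mul_pos h x3
      have := mul_nonneg hb y3.le
      linarith

lemma ra_convex (e₁ : ℝ) : Convex ℝ (ra e₁) := by
  intro x hx y hy a b ha hb hab
  obtain ⟨x1, x2, x3⟩ := hx
  obtain ⟨y1, y2, y3⟩ := hy
  refine ⟨(norm_add_le _ _).trans ?_, ?_, ?_⟩
  · rw [norm_smul, norm_smul, Real.norm_of_nonneg ha, Real.norm_of_nonneg hb]
    nlinarith
  · simp only [Complex.add_im, Complex.smul_im, smul_eq_mul, x2, y2]
    ring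
  · simp only [Complex.add_re, Complex.smul_re, smul_eq_mul]
    have : e₁ * (a * x.re + b * y.re) = a * (e₁ * x.re) + b * (e₁ * y.re) := by ring
    rw [this]
    positivity

lemma rb_convex (e₂ : ℝ) : Convex ℝ (rb e₂) := by
  intro x hx y hy a b ha hb hab
  obtain ⟨x1, x2, x3⟩ := hx
  obtain ⟨y1, y2, y3⟩ := hy
  refine ⟨(norm_add_le _ _).trans ?_, ?_, ?_⟩
  · rw [norm_smul, norm_smul, Real.norm_of_nonneg ha, Real.norm_of_nonneg hb]
    nlinarith
  · simp only [Complex.add_re, Complex.smul_re, smul_eq_mul, x2, y2]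
    ring
  · simp only [Complex.add_im, Complex.smul_im, smul_eq_mul]
    have : e₂ * (a * x.im + b * y.im) = a * (e₂ * x.im) + b * (e₂ * y.im) := by ring
    rw [this]
    positivity

/-- the closed quarter plane without `0` -/
def qp (e₁ e₂ : ℝ) : Set ℂ := {w | 0 ≤ e₁ * w.re ∧ 0 ≤ e₂ * w.im ∧ 0 < e₁ * w.re + e₂ * w.im}

lemma qp_convex (e₁ e₂ : ℝ) : Convex ℝ (qp e₁ e₂) := by
  intro x hx y hy a b ha hb hab
  obtain ⟨x1, x2, x3⟩ := hx
  obtain ⟨y1, y2, y3⟩ := hy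
  have e1 : e₁ * (a • x + b • y).re = a * (e₁ * x.re) + b * (e₁ * y.re) := by
    simp only [Complex.add_re, Complex.smul_re, smul_eq_mul]
    ring
  have e2 : e₂ * (a • x + b • y).im = a * (e₂ * x.im) + b * (e₂ * y.im) := by
    simp only [Complex.add_im, Complex.smul_im, smul_eq_mul]
    ring
  refine ⟨?_, ?_, ?_⟩
  · rw [e1]
    positivity
  · rw [e2]
    positivity
  · rw [e1, e2]
    rcases eq_or_lt_of_le ha with h | h
    · rw [← h] at hab ⊢
      have : b = 1 := by linarith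
      rw [this]
      linarith
    · have := mul_pos h x3
      have := mul_nonneg hb y3.le
      linarith

lemma rd_preconnected {e₁ e₂ : ℝ} (he₁ : e₁ ≠ 0) (he₂ : e₂ ≠ 0) : IsPreconnected (rd e₁ e₂) := by
  have h : rd e₁ e₂ = (fun w : ℂ => (‖w‖⁻¹ : ℝ) • w) '' qp e₁ e₂ := by
    ext w
    constructor
    · rintro ⟨h1, h2, h3⟩
      refine ⟨w, ⟨h2, h3, ?_⟩, ?_⟩
      · rcases eq_or_lt_of_le h2 with h4 | h4
        · rcases eq_or_lt_of_le h3 with h5 | h5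
          · exfalso
            have h6 : w.re = 0 := (mul_eq_zero.1 h4.symm).resolve_left he₁
            have h7 : w.im = 0 := (mul_eq_zero.1 h5.symm).resolve_left he₂
            rw [neq, h6, h7] at h1
            norm_num at h1
          · linarith
        · linarith
      · simp only
        rw [h1]
        simp
    · rintro ⟨v, ⟨h1, h2, h3⟩, rfl⟩
      have hv : v ≠ 0 := by
        rintro rfl
        simp at h3
      have hn : 0 < ‖v‖ := norm_pos_iff.2 hv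
      refine ⟨?_, ?_, ?_⟩
      · simp only
        rw [norm_smul, Real.norm_of_nonneg (by positivity), inv_mul_cancel₀ hn.ne']
      · simp only [Complex.smul_re, smul_eq_mul]
        have : e₁ * (‖v‖⁻¹ * v.re) = ‖v‖⁻¹ * (e₁ * v.re) := by ring
        rw [this]
        positivity
      · simp only [Complex.smul_im, smul_eq_mul]
        have : e₂ * (‖v‖⁻¹ * v.im) = ‖v‖⁻¹ * (e₂ * v.im) := by ring
        rw [this]
        positivity
  rw [h]
  refine (qp_convex e₁ e₂).isPreconnected.image _ ?_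
  refine ContinuousOn.smul (ContinuousOn.inv₀ continuous_norm.continuousOn ?_) continuousOn_id
  intro v hv
  obtain ⟨h1, h2, h3⟩ := hv
  rw [norm_ne_zero_iff]
  rintro rfl
  simp at h3


section main

variable {A B D : Circ} {p : ℂ} {f : ℂ → ℂ} {S : Finset Circ} {e₁ e₂ : ℝ}

/-- the face -/
def Q (f : ℂ → ℂ) (e₁ e₂ : ℝ) : Set ℂ := f '' qo e₁ e₂

/-- the sign conditions -/
def Sg (e : ℝ) : Prop := e = 1 ∨ e = -1

lemma Sg.ne (h : Sg e₁) : e₁ ≠ 0 := by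
  rcases h with h | h <;> rw [h] <;> norm_num

lemma Sg.sq (h : Sg e₁) : e₁ * e₁ = 1 := by
  rcases h with h | h <;> rw [h] <;> norm_num

lemma eq_of_sg (h : Sg e₁) {x : ℝ} (h1 : x ^ 2 = 1) (h2 : 0 ≤ e₁ * x) : x = e₁ := by
  have h3 : (x - e₁) * (x + e₁) = 0 := by
    have := h.sq
    nlinarith
  rcases mul_eq_zero.1 h3 with h4 | h4
  · linarith
  · exfalso
    have h5 : x = -e₁ := by linarith
    rw [h5] at h2
    have := h.sq
    nlinarith

/-- an inner point of the quarter -/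
noncomputable def w0 (e₁ e₂ : ℝ) : ℂ := ⟨e₁ / 2, e₂ / 2⟩

lemma w0_mem (h₁ : Sg e₁) (h₂ : Sg e₂) : w0 e₁ e₂ ∈ qo e₁ e₂ := by
  have a1 := h₁.sq
  have a2 := h₂.sq
  refine ⟨?_, ?_, ?_⟩
  · rw [nlt]
    show (e₁ / 2) ^ 2 + (e₂ / 2) ^ 2 < 1
    nlinarith
  · show 0 < e₁ * (e₁ / 2)
    linarith
  · show 0 < e₂ * (e₂ / 2)
    linarith

lemma qc_eq_closure (h₁ : Sg e₁) (h₂ : Sg e₂) : closure (qo e₁ e₂) = qc e₁ e₂ := by
  refine Subset.antisymm (closure_minimal (fun w h => ⟨h.1.le, h.2.1.le, h.2.2.le⟩)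
    (qc_closed e₁ e₂)) ?_
  intro w hw
  have h0 := w0_mem h₁ h₂
  have h1 : openSegment ℝ w (w0 e₁ e₂) ⊆ qo e₁ e₂ := by
    rintro z ⟨a, b, ha, hb, hab, rfl⟩
    obtain ⟨x1, x2, x3⟩ := hw
    obtain ⟨y1, y2, y3⟩ := h0
    refine ⟨lt_of_le_of_lt (norm_add_le _ _) ?_, ?_, ?_⟩
    · rw [norm_smul, norm_smul, Real.norm_of_nonneg ha.le, Real.norm_of_nonneg hb.le]
      nlinarith
    · have : e₁ * (a • w + b • w0 e₁ e₂).re = a * (e₁ * w.re) + b * (e₁ * (w0 e₁ e₂).re) := by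
        simp only [Complex.add_re, Complex.smul_re, smul_eq_mul]
        ring
      rw [this]
      have := mul_pos hb y2
      have := mul_nonneg ha.le x2
      linarith
    · have : e₂ * (a • w + b • w0 e₁ e₂).im = a * (e₂ * w.im) + b * (e₂ * (w0 e₁ e₂).im) := by
        simp only [Complex.add_im, Complex.smul_im, smul_eq_mul]
        ring
      rw [this]
      have := mul_pos hb y3
      have := mul_nonneg ha.le x3
      linarith
  have h2 : w ∈ closure (openSegment ℝ w (w0 e₁ e₂)) := by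
    rw [closure_openSegment]
    exact left_mem_segment ℝ _ _
  exact closure_mono h1 h2

lemma boundary (h₁ : Sg e₁) (h₂ : Sg e₂) :
    qc e₁ e₂ \ qo e₁ e₂ = ra e₁ ∪ rb e₂ ∪ rd e₁ e₂ := by
  ext w
  constructor
  · rintro ⟨⟨h1, h2, h3⟩, h4⟩
    rcases eq_or_lt_of_le h1 with a1 | a1
    · exact Or.inr ⟨a1, h2, h3⟩
    · rcases eq_or_lt_of_le h2 with a2 | a2
      · exact Or.inl (Or.inr ⟨h1, (mul_eq_zero.1 a2.symm).resolve_left h₁.ne, h3⟩)
      · rcases eq_or_lt_of_le h3 with a3 | a3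
        · exact Or.inl (Or.inl ⟨h1, (mul_eq_zero.1 a3.symm).resolve_left h₂.ne, h2⟩)
        · exact absurd ⟨a1, a2, a3⟩ h4
  · rintro ((⟨h1, h2, h3⟩ | ⟨h1, h2, h3⟩) | ⟨h1, h2, h3⟩)
    · refine ⟨⟨h1, h3, ?_⟩, ?_⟩
      · rw [h2, mul_zero]
      · rintro ⟨-, -, h4⟩
        rw [h2, mul_zero] at h4
        exact lt_irrefl _ h4
    · refine ⟨⟨h1, ?_, h3⟩, ?_⟩
      · rw [h2, mul_zero]
      · rintro ⟨-, h4, -⟩
        rw [h2, mul_zero] at h4
        exact lt_irrefl _ h4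
    · refine ⟨⟨h1.le, h2, h3⟩, ?_⟩
      rintro ⟨h4, -, -⟩
      rw [h1] at h4
      exact lt_irrefl _ h4

lemma Q_open (hc : Chart A B D p f) : IsOpen (Q f e₁ e₂) := by
  obtain ⟨hinj, hcont, him, -, hch⟩ := hc
  have h1 : Q f e₁ e₂ = ball D.c D.r ∩ (f '' (closedBall 0 1 \ qo e₁ e₂))ᶜ := by
    ext z
    constructor
    · rintro ⟨w, hw, rfl⟩
      have hwK := qo_sub _ _ hw
      refine ⟨?_, ?_⟩
      · have h2 : f w ∈ D.disc := him ▸ mem_image_of_mem f hwK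
        have h3 : f w ∉ D.pts := fun h => by
          have := (hch w hwK).1.1 h
          exact absurd hw.1 (by rw [this]; exact lt_irrefl _)
        have h4 : dist (f w) D.c ≤ D.r := h2
        have h5 : dist (f w) D.c ≠ D.r := h3
        exact lt_of_le_of_ne h4 h5
      · rintro ⟨v, ⟨hv1, hv2⟩, hv3⟩
        exact hv2 (hinj hv1 hwK hv3 ▸ hw)
    · rintro ⟨h2, h3⟩
      have h4 : z ∈ D.disc := ball_subset_closedBall h2
      rw [← him] at h4
      obtain ⟨w, hw, rfl⟩ := h4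
      refine ⟨w, ?_, rfl⟩
      by_contra h5
      exact h3 ⟨w, ⟨hw, h5⟩, rfl⟩
  rw [h1]
  refine isOpen_ball.inter (IsClosed.isOpen_compl (self := ?_))
  refine (IsCompact.image_of_continuousOn ?_ (hcont.mono sdiff_subset)).isClosed
  exact (isCompact_closedBall 0 1).diff (qo_open e₁ e₂)

lemma Q_closure (hc : Chart A B D p f) (h₁ : Sg e₁) (h₂ : Sg e₂) :
    closure (Q f e₁ e₂) = f '' qc e₁ e₂ := by
  obtain ⟨hinj, hcont, him, -, hch⟩ := hc
  refine Subset.antisymm (closure_minimal (image_mono fun w h => ⟨h.1.le, h.2.1.le, h.2.2.le⟩) ?_) ?_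
  · refine (IsCompact.image_of_continuousOn ?_ (hcont.mono (qc_sub e₁ e₂))).isClosed
    exact (isCompact_closedBall (0 : ℂ) 1).of_isClosed_subset (qc_closed e₁ e₂) (qc_sub e₁ e₂)
  · rw [← qc_eq_closure h₁ h₂]
    refine ContinuousOn.image_closure ?_
    rw [qc_eq_closure h₁ h₂]
    exact hcont.mono (qc_sub e₁ e₂)

lemma Q_frontier (hc : Chart A B D p f) (h₁ : Sg e₁) (h₂ : Sg e₂) :
    frontier (Q f e₁ e₂) = f '' ra e₁ ∪ f '' rb e₂ ∪ f '' rd e₁ e₂ := by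
  rw [frontier, Q_closure hc h₁ h₂, (Q_open hc).interior_eq]
  rw [← image_union, ← image_union, ← boundary h₁ h₂]
  unfold Q
  refine (InjOn.image_sdiff_subset (hc.1.mono (qc_sub e₁ e₂)) fun w h => ⟨h.1.le, h.2.1.le, h.2.2.le⟩).symm

lemma arc_of {E : Circ} {R : Set ℂ} (hc : Chart A B D p f) (hR : R ⊆ closedBall 0 1)
    (hcl : IsClosed R) (hpre : IsPreconnected R) (hE : ∀ w ∈ R, f w ∈ E.pts)
    {x y z : ℂ} (hx : x ∈ R) (hy : y ∈ R) (hxy : x ≠ y) (hz : z ∈ closedBall (0 : ℂ) 1)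
    (hzR : z ∉ R) (hzE : f z ∈ E.pts) : IsArc (f '' R) E := by
  obtain ⟨hinj, hcont, him, -, hch⟩ := hc
  refine ⟨?_, ?_, ?_, ?_, ?_⟩
  · rintro _ ⟨w, hw, rfl⟩
    exact hE w hw
  · refine (IsCompact.image_of_continuousOn ?_ (hcont.mono hR)).isClosed
    exact (isCompact_closedBall (0 : ℂ) 1).of_isClosed_subset hcl hR
  · exact hpre.image f (hcont.mono hR)
  · exact ⟨f x, mem_image_of_mem f hx, f y, mem_image_of_mem f hy,
      fun h => hxy (hinj (hR hx) (hR hy) h)⟩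
  · intro h
    rw [← h] at hzE
    obtain ⟨w, hw, hw2⟩ := hzE
    exact hzR (hinj (hR hw) hz hw2 ▸ hw)

lemma face_of {S : Finset Circ} {T : Set ℂ} (hne : T.Nonempty) (hpre : IsPreconnected T)
    (hd : T ⊆ (un S)ᶜ) (hf : frontier T ⊆ un S) : IsFace S T := by
  obtain ⟨z, hz⟩ := hne
  refine ⟨z, hd hz, Subset.antisymm (hpre.subset_connectedComponentIn hz hd) ?_⟩
  by_contra h
  obtain ⟨y, hy1, hy2⟩ := not_subset.1 h
  have hpc : IsPreconnected (connectedComponentIn (un S)ᶜ z) := isPreconnected_connectedComponentIn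
  have hfr : ∀ x ∈ connectedComponentIn (un S)ᶜ z, x ∈ interior T ∪ (closure T)ᶜ := by
    intro x hx
    by_contra h3
    rw [mem_union, not_or] at h3
    have h4 : x ∈ frontier T := ⟨not_not.1 h3.2, h3.1⟩
    exact (connectedComponentIn_subset _ _ hx) (hf h4)
  have hzc := mem_connectedComponentIn (hd hz)
  obtain ⟨x, -, hx2, hx3⟩ := hpc (interior T) (closure T)ᶜ isOpen_interior
    isClosed_closure.isOpen_compl hfr
    ⟨z, hzc, (hfr z hzc).resolve_right fun h => h (subset_closure hz)⟩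
    ⟨y, hy1, (hfr y hy1).resolve_left fun h => hy2 (interior_subset h)⟩
  exact hx3 (subset_closure (interior_subset hx2))

lemma Orth.ne' {A B : Circ} (h : Orth A B) : A ≠ B := by
  rintro rfl
  unfold Orth at h
  rw [dist_self] at h
  have := A.pos
  nlinarith

lemma ofe (h₁ : Sg e₁) {w : ℂ} (h1 : ‖w‖ = 1) (h2 : w.im = 0) (h3 : 0 ≤ e₁ * w.re) : w = ⟨e₁, 0⟩ := by
  rw [neq, h2] at h1
  exact Complex.ext (eq_of_sg h₁ (by linarith) h3) h2

lemma ofi (h₂ : Sg e₂) {w : ℂ} (h1 : ‖w‖ = 1) (h2 : w.re = 0) (h3 : 0 ≤ e₂ * w.im) : w = ⟨0, e₂⟩ := by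
  rw [neq, h2] at h1
  exact Complex.ext h2 (eq_of_sg h₂ (by linarith) h3)

lemma tri (hAB : Orth A B) (hAD : Orth A D) (hBD : Orth B D) (hc : Chart A B D p f)
    (hA : A ∈ S) (hB : B ∈ S) (hD : D ∈ S)
    (hrest : ∀ C ∈ S, C ≠ A → C ≠ B → C ≠ D → Disjoint C.pts D.disc) (h₁ : Sg e₁) (h₂ : Sg e₂) :
    Triangular S (Q f e₁ e₂) := by
  have hchart := hc
  obtain ⟨hinj, hcont, him, -, hch⟩ := hc
  have s1 := h₁.sq
  have s2 := h₂.sq
  have nAB := Orth.ne' hAB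
  have nAD := Orth.ne' hAD
  have nBD := Orth.ne' hBD
  -- the corners
  have m0 : (0 : ℂ) ∈ closedBall (0 : ℂ) 1 := by simp
  have me : (⟨e₁, 0⟩ : ℂ) ∈ closedBall (0 : ℂ) 1 := by
    rw [memK]
    show e₁ ^ 2 + 0 ^ 2 ≤ 1
    nlinarith
  have mi : (⟨0, e₂⟩ : ℂ) ∈ closedBall (0 : ℂ) 1 := by
    rw [memK]
    show (0 : ℝ) ^ 2 + e₂ ^ 2 ≤ 1
    nlinarith
  have me' : (⟨-e₁, 0⟩ : ℂ) ∈ closedBall (0 : ℂ) 1 := by
    rw [memK]
    show (-e₁) ^ 2 + 0 ^ 2 ≤ 1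
    nlinarith
  have mi' : (⟨0, -e₂⟩ : ℂ) ∈ closedBall (0 : ℂ) 1 := by
    rw [memK]
    show (0 : ℝ) ^ 2 + (-e₂) ^ 2 ≤ 1
    nlinarith
  have ne1 : ‖(⟨e₁, 0⟩ : ℂ)‖ = 1 := by
    rw [neq]
    show e₁ ^ 2 + 0 ^ 2 = 1
    nlinarith
  have ne2 : ‖(⟨0, e₂⟩ : ℂ)‖ = 1 := by
    rw [neq]
    show (0 : ℝ) ^ 2 + e₂ ^ 2 = 1
    nlinarith
  have ne1' : ‖(⟨-e₁, 0⟩ : ℂ)‖ = 1 := by
    rw [neq]
    show (-e₁) ^ 2 + 0 ^ 2 = 1
    nlinarith
  have z0a : (0 : ℂ) ∈ ra e₁ := ⟨by simp, rfl, by simp⟩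
  have z0b : (0 : ℂ) ∈ rb e₂ := ⟨by simp, rfl, by simp⟩
  have ea : (⟨e₁, 0⟩ : ℂ) ∈ ra e₁ := ⟨ne1.le, rfl, by show 0 ≤ e₁ * e₁; linarith⟩
  have ib : (⟨0, e₂⟩ : ℂ) ∈ rb e₂ := ⟨ne2.le, rfl, by show 0 ≤ e₂ * e₂; linarith⟩
  have ed : (⟨e₁, 0⟩ : ℂ) ∈ rd e₁ e₂ := ⟨ne1, by show 0 ≤ e₁ * e₁; linarith, by
    show 0 ≤ e₂ * 0; linarith⟩
  have idd : (⟨0, e₂⟩ : ℂ) ∈ rd e₁ e₂ := ⟨ne2, by show 0 ≤ e₁ * 0; linarith, by
    show 0 ≤ e₂ * e₂; linarith⟩
  have x0e : (0 : ℂ) ≠ ⟨e₁, 0⟩ := fun h => h₁.ne (by have := congrArg Complex.re h; simpa using this.symm)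
  have x0i : (0 : ℂ) ≠ ⟨0, e₂⟩ := fun h => h₂.ne (by have := congrArg Complex.im h; simpa using this.symm)
  have xei : (⟨e₁, 0⟩ : ℂ) ≠ ⟨0, e₂⟩ := fun h => h₁.ne (by have := congrArg Complex.re h; simpa using this)
  -- the arcs
  have hRA : ∀ w ∈ ra e₁, f w ∈ A.pts := fun w hw => (hch w (ra_sub _ hw)).2.1.2 hw.2.1
  have hRB : ∀ w ∈ rb e₂, f w ∈ B.pts := fun w hw => (hch w (rb_sub _ hw)).2.2.2 hw.2.1
  have hRD : ∀ w ∈ rd e₁ e₂, f w ∈ D.pts := fun w hw => (hch w (rd_sub _ _ hw)).1.2 hw.1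
  have arcA : IsArc (f '' ra e₁) A := arc_of hchart (ra_sub _) (ra_closed _)
    (ra_convex _).isPreconnected hRA z0a ea x0e me'
    (fun h => by
      have h3 : 0 ≤ e₁ * (-e₁) := h.2.2
      nlinarith) ((hch _ me').2.1.2 rfl)
  have arcB : IsArc (f '' rb e₂) B := arc_of hchart (rb_sub _) (rb_closed _)
    (rb_convex _).isPreconnected hRB z0b ib x0i mi'
    (fun h => by
      have h3 : 0 ≤ e₂ * (-e₂) := h.2.2
      nlinarith) ((hch _ mi').2.2.2 rfl)
  have arcD : IsArc (f '' rd e₁ e₂) D := arc_of hchart (rd_sub _ _) (rd_closed _ _)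
    (rd_preconnected h₁.ne h₂.ne) hRD ed idd xei me'
    (fun h => by
      have h3 : 0 ≤ e₁ * (-e₁) := h.2.1
      nlinarith) ((hch _ me').1.2 ne1')
  have hfr := Q_frontier hchart h₁ h₂
  have hQsub : ∀ w ∈ qo e₁ e₂, f w ∈ (un S)ᶜ := by
    intro w hw hmem
    have hwK := qo_sub _ _ hw
    obtain ⟨c1, c2, c3⟩ := hch w hwK
    unfold un at hmem
    rw [mem_iUnion₂] at hmem
    obtain ⟨C, hC, hCw⟩ := hmem
    obtain ⟨w1, w2, w3⟩ := hw
    by_cases a1 : C = A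
    · rw [a1] at hCw
      have := c2.1 hCw
      rw [this, mul_zero] at w3
      exact lt_irrefl _ w3
    by_cases a2 : C = B
    · rw [a2] at hCw
      have := c3.1 hCw
      rw [this, mul_zero] at w2
      exact lt_irrefl _ w2
    by_cases a3 : C = D
    · rw [a3] at hCw
      have := c1.1 hCw
      rw [this] at w1
      exact lt_irrefl _ w1
    exact disjoint_left.1 (hrest C hC a1 a2 a3) hCw (him ▸ mem_image_of_mem f hwK)
  have hfun : frontier (Q f e₁ e₂) ⊆ un S := by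
    rw [hfr]
    rintro z ((⟨w, hw, rfl⟩ | ⟨w, hw, rfl⟩) | ⟨w, hw, rfl⟩)
    · exact mem_iUnion₂.2 ⟨A, hA, hRA w hw⟩
    · exact mem_iUnion₂.2 ⟨B, hB, hRB w hw⟩
    · exact mem_iUnion₂.2 ⟨D, hD, hRD w hw⟩
  refine ⟨face_of ⟨f (w0 e₁ e₂), mem_image_of_mem f (w0_mem h₁ h₂)⟩
    ((qo_convex e₁ e₂).isPreconnected.image f (hcont.mono (qo_sub e₁ e₂)))
    (by rintro _ ⟨w, hw, rfl⟩; exact hQsub w hw) hfun, A, hA, B, hB, D, hD, nAB, nBD, nAD,
    f '' ra e₁, f '' rb e₂, f '' rd e₁ e₂, f ⟨0, e₂⟩, f ⟨e₁, 0⟩, f 0, arcA, arcB, arcD,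
    fun h => xei (hinj mi me h).symm, fun h => x0e (hinj me m0 h).symm,
    fun h => x0i (hinj mi m0 h).symm, ?_, ?_, ?_, hfr, ?_⟩
  · ext z
    constructor
    · rintro ⟨⟨w, hw, rfl⟩, ⟨v, hv, hvw⟩⟩
      have := hinj (rd_sub _ _ hv) (rb_sub _ hw) hvw
      rw [this] at hv
      rw [mem_singleton_iff, ofi h₂ hv.1 hw.2.1 hv.2.2]
    · rintro h
      rw [mem_singleton_iff] at h
      rw [h]
      exact ⟨mem_image_of_mem f ib, mem_image_of_mem f idd⟩
  · ext z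
    constructor
    · rintro ⟨⟨w, hw, rfl⟩, ⟨v, hv, hvw⟩⟩
      have := hinj (rd_sub _ _ hv) (ra_sub _ hw) hvw
      rw [this] at hv
      rw [mem_singleton_iff, ofe h₁ hv.1 hw.2.1 hv.2.1]
    · rintro h
      rw [mem_singleton_iff] at h
      rw [h]
      exact ⟨mem_image_of_mem f ea, mem_image_of_mem f ed⟩
  · ext z
    constructor
    · rintro ⟨⟨w, hw, rfl⟩, ⟨v, hv, hvw⟩⟩
      have := hinj (rb_sub _ hv) (ra_sub _ hw) hvw
      rw [this] at hv
      rw [mem_singleton_iff, show w = 0 from Complex.ext hv.2.1 hw.2.1]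
    · rintro h
      rw [mem_singleton_iff] at h
      rw [h]
      exact ⟨mem_image_of_mem f z0a, mem_image_of_mem f z0b⟩
  · ext z
    constructor
    · rintro ⟨hz, X, hX, Y, hY, hXY, hzX, hzY⟩
      have hz' : z ∈ closure (Q f e₁ e₂) := hz.1
      rw [Q_closure hchart h₁ h₂] at hz'
      obtain ⟨w, hw, rfl⟩ := hz'
      have hwK := qc_sub _ _ hw
      have hwD : f w ∈ D.disc := him ▸ mem_image_of_mem f hwK
      obtain ⟨c1, c2, c3⟩ := hch w hwK
      have key : ∀ C ∈ S, f w ∈ C.pts → C = A ∨ C = B ∨ C = D := by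
        intro C hC hCw
        by_contra h
        rw [not_or, not_or] at h
        exact disjoint_left.1 (hrest C hC h.1 h.2.1 h.2.2) hCw hwD
      have kAB : f w ∈ A.pts → f w ∈ B.pts → f w ∈ ({f ⟨0, e₂⟩, f ⟨e₁, 0⟩, f 0} : Set ℂ) := by
        intro ha hb
        have : w = 0 := Complex.ext (c3.1 hb) (c2.1 ha)
        rw [this]
        simp
      have kAD : f w ∈ A.pts → f w ∈ D.pts → f w ∈ ({f ⟨0, e₂⟩, f ⟨e₁, 0⟩, f 0} : Set ℂ) := by
        intro ha hb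
        rw [ofe h₁ (c1.1 hb) (c2.1 ha) hw.2.1]
        simp
      have kBD : f w ∈ B.pts → f w ∈ D.pts → f w ∈ ({f ⟨0, e₂⟩, f ⟨e₁, 0⟩, f 0} : Set ℂ) := by
        intro ha hb
        rw [ofi h₂ (c1.1 hb) (c3.1 ha) hw.2.2]
        simp
      rcases key X hX hzX with rfl | rfl | rfl <;> rcases key Y hY hzY with rfl | rfl | rfl
      · exact absurd rfl hXY
      · exact kAB hzX hzY
      · exact kAD hzX hzY
      · exact kAB hzY hzX
      · exact absurd rfl hXY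
      · exact kBD hzX hzY
      · exact kAD hzY hzX
      · exact kBD hzY hzX
      · exact absurd rfl hXY
    · have hfr1 : f ⟨0, e₂⟩ ∈ frontier (Q f e₁ e₂) := by
        rw [hfr]; exact Or.inl (Or.inr (mem_image_of_mem f ib))
      have hfr2 : f ⟨e₁, 0⟩ ∈ frontier (Q f e₁ e₂) := by
        rw [hfr]; exact Or.inl (Or.inl (mem_image_of_mem f ea))
      have hfr3 : f 0 ∈ frontier (Q f e₁ e₂) := by
        rw [hfr]; exact Or.inl (Or.inl (mem_image_of_mem f z0a))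
      rintro (h | h | h)
      · rw [h]
        exact ⟨hfr1, B, hB, D, hD, nBD, hRB _ ib, hRD _ idd⟩
      · rw [h]
        exact ⟨hfr2, A, hA, D, hD, nAD, hRA _ ea, hRD _ ed⟩
      · rw [mem_singleton_iff] at h
        rw [h]
        exact ⟨hfr3, A, hA, B, hB, nAB, hRA _ z0a, hRB _ z0b⟩

end main

/-- the signs -/
def sa : Fin 4 → ℝ := ![1, 1, -1, -1]

/-- the signs -/
def sb : Fin 4 → ℝ := ![1, -1, 1, -1]

lemma sa_sg (i : Fin 4) : Sg (sa i) := by
  unfold Sg sa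
  fin_cases i <;> simp

lemma sb_sg (i : Fin 4) : Sg (sb i) := by
  unfold Sg sb
  fin_cases i <;> simp

lemma sab_inj {i j : Fin 4} (h1 : 0 < sa j * sa i) (h2 : 0 < sb j * sb i) : i = j := by
  unfold sa at h1
  unfold sb at h2
  fin_cases i <;> fin_cases j <;> simp_all <;> first | rfl | (exfalso; linarith)

/-- Package M2 of project OC. -/
theorem t_M2 : S_M2 := by
  intro A B D p f S hAB hAD hBD hc hA hB hD hrest
  refine ⟨fun i => Q f (sa i) (sb i), ?_, fun i => ⟨tri hAB hAD hBD hc hA hB hD hrest (sa_sg i)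
    (sb_sg i), ?_⟩⟩
  · intro i j hij
    have h0 := w0_mem (sa_sg i) (sb_sg i)
    have h1 : f (w0 (sa i) (sb i)) ∈ Q f (sa j) (sb j) := by
      have h : Q f (sa i) (sb i) = Q f (sa j) (sb j) := hij
      rw [← h]
      exact mem_image_of_mem f h0
    obtain ⟨w, hw, hw2⟩ := h1
    have h2 := hc.1 (qo_sub _ _ hw) (qo_sub _ _ h0) hw2
    rw [h2] at hw
    obtain ⟨-, h3, h4⟩ := hw
    have h5 : 0 < sa j * (sa i / 2) := h3
    have h6 : 0 < sb j * (sb i / 2) := h4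
    exact sab_inj (by linarith) (by linarith)
  · rintro _ ⟨w, hw, rfl⟩
    rw [← hc.2.2.1]
    exact mem_image_of_mem f (qo_sub _ _ hw)

end Pool.Agent.U643.OC
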